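import Pool.Agent.Work.MP_db9399_cg.Interface

/-!
# Block CODEG (helper21): the sparse world contains all graphs with small codegrees
-/

set_option autoImplicit false

namespace Pool.Agent.Work.MP_db9399_cg.helper21

open Finset Classical
open Pool.Agent.Work.MP_db9399_all (nb)

universe u

section Codeg

variable {V : Type u} [Fintype V] (G : SimpleGraph V)

theorem nbT_eq (T : Finset V) (u : V) :
    ((nb G u ∩ T).card : ℝ) = ∑ v ∈ T, if G.Adj v u then (1 : ℝ) else 0 := by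
  rw [Finset.sum_boole]
  congr 2
  ext v
  simp [nb, and_comm, G.adj_comm]

theorem codeg_eq (v w : V) : ((nb G v ∩ nb G w).card : ℝ) =
    ∑ u, (if G.Adj v u then (1 : ℝ) else 0) * (if G.Adj w u then (1 : ℝ) else 0) := by
  have h1 : ∀ u, (if G.Adj v u then (1 : ℝ) else 0) * (if G.Adj w u then (1 : ℝ) else 0) =
      if G.Adj v u ∧ G.Adj w u then 1 else 0 := by
    intro u
    split_ifs <;> simp_all
  simp_rw [h1]
  rw [Finset.sum_boole]
  congr 2
  ext u
  simp [nb]

theorem sum_sq (T : Finset V) : ∑ u, ((nb G u ∩ T).card : ℝ) ^ 2 =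
    ∑ v ∈ T, ∑ w ∈ T, ((nb G v ∩ nb G w).card : ℝ) := by
  simp_rw [codeg_eq, nbT_eq, sq, Finset.sum_mul_sum]
  rw [Finset.sum_comm]
  refine Finset.sum_congr rfl fun v _ => ?_
  rw [Finset.sum_comm]

theorem edges_swap (T U : Finset V) : ∑ v ∈ T, ((nb G v ∩ U).card : ℝ) =
    ∑ u ∈ U, ((nb G u ∩ T).card : ℝ) := by
  simp_rw [nbT_eq]
  rw [Finset.sum_comm]
  refine Finset.sum_congr rfl fun u _ => Finset.sum_congr rfl fun v _ => ?_
  simp only [G.adj_comm]

end Codeg

/-- **Block CODEG.** -/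
theorem stmt_CODEG (h : Stmt_SPW.{u}) : Stmt_CODEG.{u} := by
  obtain ⟨M, d0, hM, H⟩ := h (1 / 3) (by norm_num) (by norm_num)
  have hM0 : 0 < M := by linarith
  refine ⟨1 / (24 * M), max d0 24, by positivity, ?_⟩
  intro V _ G d hd hdeg hco
  have hd24 : (24 : ℝ) ≤ d := by exact_mod_cast le_trans (le_max_right _ _) hd
  have hd0 : (0 : ℝ) < d := by linarith
  apply H G d (le_trans (le_max_left _ _) hd) hdeg
  intro T U hT hTM hU
  obtain ⟨t, ht⟩ : ∃ t : ℝ, t = T.card := ⟨_, rfl⟩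
  have ht0 : 0 ≤ t := by rw [ht]; positivity
  obtain ⟨e, he⟩ : ∃ e : ℝ, e = ∑ v ∈ T, ((nb G v ∩ U).card : ℝ) := ⟨_, rfl⟩
  have he0 : 0 ≤ e := by rw [he]; positivity
  rw [← ht] at hTM hU ⊢
  -- the number of edges between `T` and `U`
  have hrow : ∀ v ∈ T, ∑ w ∈ T, ((nb G v ∩ nb G w).card : ℝ) ≤ d + t * (1 / (24 * M) * d) := by
    intro v hv
    calc ∑ w ∈ T, ((nb G v ∩ nb G w).card : ℝ)
        ≤ ∑ w ∈ T, ((if w = v then (d : ℝ) else 0) + 1 / (24 * M) * d) := by
          refine Finset.sum_le_sum fun w _ => ?_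
          by_cases hw : w = v
          · rw [if_pos hw, hw, inter_self]
            have h1 : ((nb G v).card : ℝ) ≤ d := by exact_mod_cast hdeg v
            have h2 : 0 ≤ 1 / (24 * M) * (d : ℝ) := by positivity
            linarith
          · rw [if_neg hw, zero_add]
            exact hco v w (fun h => hw h.symm)
      _ = d + t * (1 / (24 * M) * d) := by
          rw [Finset.sum_add_distrib, Finset.sum_ite_eq' T v, if_pos hv, Finset.sum_const,
            nsmul_eq_mul, ht]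
  have hsq : e ^ 2 ≤ (d * t / 3) ^ 2 := by
    have h1 : e ^ 2 ≤ (U.card : ℝ) * ∑ u ∈ U, ((nb G u ∩ T).card : ℝ) ^ 2 := by
      rw [he, edges_swap]
      exact sq_sum_le_card_mul_sum_sq
    have h2 : ∑ u ∈ U, ((nb G u ∩ T).card : ℝ) ^ 2 ≤ t * (d + t * (1 / (24 * M) * d)) := by
      calc ∑ u ∈ U, ((nb G u ∩ T).card : ℝ) ^ 2 ≤ ∑ u, ((nb G u ∩ T).card : ℝ) ^ 2 :=
            Finset.sum_le_sum_of_subset_of_nonneg (subset_univ _) fun _ _ _ => sq_nonneg _
        _ = ∑ v ∈ T, ∑ w ∈ T, ((nb G v ∩ nb G w).card : ℝ) := sum_sq G T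
        _ ≤ ∑ v ∈ T, (d + t * (1 / (24 * M) * d)) := Finset.sum_le_sum hrow
        _ = t * (d + t * (1 / (24 * M) * d)) := by
            rw [Finset.sum_const, nsmul_eq_mul, ht]
    have h3 : t * (1 / (24 * M) * d) ≤ d ^ 2 / 24 := by
      calc t * (1 / (24 * M) * d) ≤ (M * d) * (1 / (24 * M) * d) :=
            mul_le_mul_of_nonneg_right hTM (by positivity)
        _ = d ^ 2 / 24 := by
            field_simp
    have h4 : (U.card : ℝ) ≤ 4 / 3 * t := by linarith
    calc e ^ 2 ≤ (U.card : ℝ) * (t * (d + t * (1 / (24 * M) * d))) :=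
          le_trans h1 (mul_le_mul_of_nonneg_left h2 (Nat.cast_nonneg _))
      _ ≤ (4 / 3 * t) * (t * (d + d ^ 2 / 24)) := by
          apply mul_le_mul h4 _ (by positivity) (by positivity)
          apply mul_le_mul_of_nonneg_left _ ht0
          linarith
      _ ≤ (d * t / 3) ^ 2 := by
          have h5 : (4 / 3 : ℝ) * (d + d ^ 2 / 24) ≤ d ^ 2 / 9 := by nlinarith
          have h6 := mul_le_mul_of_nonneg_left h5 (sq_nonneg t)
          nlinarith
  have he3 : e ≤ d * t / 3 := by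
    apply le_of_sq_le_sq hsq (by positivity)
  -- conclusion
  have hout : outE G T U = ∑ v ∈ T, ((nb G v).card : ℝ) - e := by
    rw [he, ← Finset.sum_sub_distrib]
    unfold outE
    refine Finset.sum_congr rfl fun v _ => ?_
    have h1 : (nb G v \ U).card + (nb G v ∩ U).card = (nb G v).card :=
      card_sdiff_add_card_inter _ _
    have h2 : ((nb G v \ U).card : ℝ) + ((nb G v ∩ U).card : ℝ) = ((nb G v).card : ℝ) := by
      exact_mod_cast h1
    linarith
  have hlow : (1 - 1 / 3) * d * t ≤ ∑ v ∈ T, ((nb G v).card : ℝ) := by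
    calc (1 - 1 / 3) * d * t = ∑ v ∈ T, ((1 - 1 / 3) * (d : ℝ)) := by
          rw [Finset.sum_const, nsmul_eq_mul, ht]
          ring
      _ ≤ _ := Finset.sum_le_sum fun v hv => hT v hv
  rw [hout]
  linarith

end Pool.Agent.Work.MP_db9399_cg.helper21
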