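import Pool.Agent.Work.MP_db9399_cg.Interface
import Pool.Agent.Work.MP_db9399_as_helper6.HK2

/-!
# Block KER (helper21): the kernel of the walk on the reserve
-/

set_option autoImplicit false
set_option linter.unusedSectionVars false

namespace Pool.Agent.Work.MP_db9399_cg.helper21

open Finset Classical
open Pool.Agent.Work.MP_db9399_all (nb)
open Pool.Agent.Work.MP_db9399_en (tk tks HH wlk)
open Pool.Agent.Work.MP_db9399_as.helper6

universe u

section Basic

variable {V : Type u} [Fintype V] (S : SimpleGraph V) (r : ℕ)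

theorem nb_eq (v : V) : nb S v = S.neighborFinset v := by
  ext w
  simp [nb]

theorem pk_zero (v x : V) : pk S r 0 v x = if v = x then 1 else 0 := rfl

theorem pk_succ (j : ℕ) (v x : V) :
    pk S r (j + 1) v x = (∑ w ∈ nb S v, pk S r j w x) / r := by
  unfold pk
  rw [Function.iterate_succ_apply']
  rfl

theorem pk_nonneg (j : ℕ) (v x : V) : 0 ≤ pk S r j v x := by
  induction j generalizing v with
  | zero =>
    rw [pk_zero]
    split_ifs <;> norm_num
  | succ j ih =>
    rw [pk_succ]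
    exact div_nonneg (Finset.sum_nonneg fun w _ => ih w) (Nat.cast_nonneg _)

theorem pk_hk (hr : 1 ≤ r) (j : ℕ) (v x : V) :
    pk S r j v x = (((r + 1 : ℕ) : ℝ) / r) ^ j * hk S (r + 1) x j v := by
  have hr' : (0 : ℝ) < r := by exact_mod_cast hr
  have hR : (0 : ℝ) < ((r + 1 : ℕ) : ℝ) := by positivity
  induction j generalizing v with
  | zero =>
    rw [pk_zero, pow_zero, one_mul]
    change _ = (Pi.single x 1 : V → ℝ) v
    rw [Pi.single_apply]
  | succ j ih =>
    rw [pk_succ]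
    simp_rw [ih]
    have h1 : hk S (r + 1) x (j + 1) v
        = (1 / ((r + 1 : ℕ) : ℝ)) * ∑ w ∈ S.neighborFinset v, hk S (r + 1) x j w := rfl
    rw [h1, nb_eq, ← Finset.mul_sum, pow_succ]
    have h2 : ((r + 1 : ℕ) : ℝ) / r * (1 / ((r + 1 : ℕ) : ℝ)) = 1 / r := by
      field_simp
    calc (((r + 1 : ℕ) : ℝ) / r) ^ j * (∑ w ∈ S.neighborFinset v, hk S (r + 1) x j w) / r
        = (((r + 1 : ℕ) : ℝ) / r) ^ j * (∑ w ∈ S.neighborFinset v, hk S (r + 1) x j w)
          * (1 / r) := by ring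
      _ = (((r + 1 : ℕ) : ℝ) / r) ^ j * (∑ w ∈ S.neighborFinset v, hk S (r + 1) x j w)
          * (((r + 1 : ℕ) : ℝ) / r * (1 / ((r + 1 : ℕ) : ℝ))) := by rw [h2]
      _ = _ := by ring

theorem hk_split (R : ℕ) (x v : V) (i k : ℕ) :
    hk S R x (k + i) v = ∑ u, hk S R v i u * hk S R x k u := by
  induction i generalizing k with
  | zero =>
    have h1 : ∀ u, hk S R v 0 u = if u = v then 1 else 0 := fun u => by
      change (Pi.single v 1 : V → ℝ) u = _
      rw [Pi.single_apply]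
    simp_rw [h1, ite_mul, one_mul, zero_mul]
    rw [Finset.sum_ite_eq' univ v, if_pos (mem_univ _), add_zero]
  | succ i ih =>
    rw [show k + (i + 1) = (k + 1) + i by ring, ih (k + 1)]
    exact wk_adj S R (hk S R v i) (hk S R x k)

theorem hk_symm (R : ℕ) (x v : V) (j : ℕ) : hk S R x j v = hk S R v j x := by
  have h := hk_split S R x v j 0
  rw [zero_add] at h
  rw [h]
  have h1 : ∀ u, hk S R x 0 u = if u = x then 1 else 0 := fun u => by
    change (Pi.single x 1 : V → ℝ) u = _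
    rw [Pi.single_apply]
  simp_rw [h1, mul_ite, mul_one, mul_zero]
  rw [Finset.sum_ite_eq' univ x, if_pos (mem_univ _)]

theorem pk_symm (hr : 1 ≤ r) (j : ℕ) (v x : V) : pk S r j v x = pk S r j x v := by
  rw [pk_hk S r hr, pk_hk S r hr, hk_symm]

theorem hk_le (R : ℕ) (x v : V) (i k : ℕ) (s : ℝ) (h1 : nsq (hk S R v i) ≤ s)
    (h2 : nsq (hk S R x k) ≤ s) : hk S R x (k + i) v ≤ s := by
  rw [hk_split]
  calc ∑ u, hk S R v i u * hk S R x k u
      ≤ ∑ u, (hk S R v i u ^ 2 / 2 + hk S R x k u ^ 2 / 2) :=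
        Finset.sum_le_sum fun u _ => by nlinarith [sq_nonneg (hk S R v i u - hk S R x k u)]
    _ = nsq (hk S R v i) / 2 + nsq (hk S R x k) / 2 := by
        unfold nsq
        rw [Finset.sum_add_distrib, Finset.sum_div, Finset.sum_div]
    _ ≤ s := by linarith

theorem nsq_hk_anti' (R : ℕ) (hdeg : ∀ u, S.degree u ≤ R) (hR : 0 < R) (v : V) {i j : ℕ}
    (hij : i ≤ j) : nsq (hk S R v j) ≤ nsq (hk S R v i) := by
  induction j, hij using Nat.le_induction with
  | base => exact le_rfl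
  | succ j _ ih => exact le_trans (nsq_hk_anti S R hdeg hR v j) ih

/-- rows -/
theorem row_bound (hr : 1 ≤ r) (lo : ∀ v, r ≤ (nb S v).card) (hi : ∀ v, (nb S v).card ≤ r + 1)
    (j : ℕ) (v : V) :
    1 ≤ ∑ x, pk S r j v x ∧ ∑ x, pk S r j v x ≤ (((r + 1 : ℕ) : ℝ) / r) ^ j := by
  have hr' : (0 : ℝ) < r := by exact_mod_cast hr
  induction j generalizing v with
  | zero =>
    simp_rw [pk_zero]
    rw [Finset.sum_ite_eq univ v, if_pos (mem_univ _), pow_zero]
    exact ⟨le_rfl, le_rfl⟩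
  | succ j ih =>
    have h1 : ∑ x, pk S r (j + 1) v x = (∑ w ∈ nb S v, ∑ x, pk S r j w x) / r := by
      simp_rw [pk_succ]
      rw [← Finset.sum_div, Finset.sum_comm]
    rw [h1]
    constructor
    · rw [le_div_iff₀ hr', one_mul]
      calc (r : ℝ) ≤ ((nb S v).card : ℝ) := by exact_mod_cast lo v
        _ = ∑ w ∈ nb S v, (1 : ℝ) := by rw [Finset.sum_const, nsmul_eq_mul, mul_one]
        _ ≤ _ := Finset.sum_le_sum fun w _ => (ih w).1
    · rw [div_le_iff₀ hr']
      calc ∑ w ∈ nb S v, ∑ x, pk S r j w x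
          ≤ ∑ w ∈ nb S v, (((r + 1 : ℕ) : ℝ) / r) ^ j := Finset.sum_le_sum fun w _ => (ih w).2
        _ = ((nb S v).card : ℝ) * (((r + 1 : ℕ) : ℝ) / r) ^ j := by
            rw [Finset.sum_const, nsmul_eq_mul]
        _ ≤ ((r + 1 : ℕ) : ℝ) * (((r + 1 : ℕ) : ℝ) / r) ^ j := by
            apply mul_le_mul_of_nonneg_right _ (by positivity)
            exact_mod_cast hi v
        _ = (((r + 1 : ℕ) : ℝ) / r) ^ (j + 1) * r := by
            rw [pow_succ]
            field_simp

theorem exc_bound (hr : 1 ≤ r) (hi : ∀ v, (nb S v).card ≤ r + 1) (E : Finset V) (ρ : ℝ)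
    (hρ : 0 ≤ ρ) (hE : ∀ v, ((nb S v ∩ E).card : ℝ) ≤ ρ * r) (j : ℕ) (v : V) :
    ∑ x ∈ E, pk S r (j + 1) v x ≤ ρ * (((r + 1 : ℕ) : ℝ) / r) ^ j := by
  have hr' : (0 : ℝ) < r := by exact_mod_cast hr
  have h1 : ∀ j v, ∑ x ∈ E, pk S r (j + 1) v x = (∑ w ∈ nb S v, ∑ x ∈ E, pk S r j w x) / r := by
    intro j v
    simp_rw [pk_succ]
    rw [← Finset.sum_div, Finset.sum_comm]
  induction j generalizing v with
  | zero =>
    rw [h1, pow_zero, mul_one, div_le_iff₀ hr']
    refine le_trans (le_of_eq ?_) (hE v)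
    simp_rw [pk_zero]
    calc ∑ w ∈ nb S v, ∑ x ∈ E, (if w = x then (1 : ℝ) else 0)
        = ∑ w ∈ nb S v, (if w ∈ E then (1 : ℝ) else 0) :=
          Finset.sum_congr rfl fun w _ => Finset.sum_ite_eq E w _
      _ = ((nb S v ∩ E).card : ℝ) := by
          rw [Finset.sum_boole, Finset.filter_mem_eq_inter]
  | succ j ih =>
    rw [h1, div_le_iff₀ hr']
    calc ∑ w ∈ nb S v, ∑ x ∈ E, pk S r (j + 1) w x
        ≤ ∑ w ∈ nb S v, ρ * (((r + 1 : ℕ) : ℝ) / r) ^ j := Finset.sum_le_sum fun w _ => ih w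
      _ = ((nb S v).card : ℝ) * (ρ * (((r + 1 : ℕ) : ℝ) / r) ^ j) := by
          rw [Finset.sum_const, nsmul_eq_mul]
      _ ≤ ((r + 1 : ℕ) : ℝ) * (ρ * (((r + 1 : ℕ) : ℝ) / r) ^ j) := by
          apply mul_le_mul_of_nonneg_right _ (by positivity)
          exact_mod_cast hi v
      _ = ρ * (((r + 1 : ℕ) : ℝ) / r) ^ (j + 1) * r := by
          rw [pow_succ]
          field_simp

theorem supp_card (hi : ∀ v, (nb S v).card ≤ r + 1) (j : ℕ) (v : V) :
    (univ.filter fun x => pk S r j v x ≠ 0).card ≤ (r + 1) ^ j := by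
  induction j generalizing v with
  | zero =>
    rw [pow_zero]
    have h1 : (univ.filter fun x => pk S r 0 v x ≠ 0) ⊆ {v} := by
      intro x hx
      rw [mem_filter, pk_zero] at hx
      rw [mem_singleton]
      by_contra hcon
      exact hx.2 (if_neg (fun h => hcon h.symm))
    exact le_trans (card_le_card h1) (by simp)
  | succ j ih =>
    have h1 : (univ.filter fun x => pk S r (j + 1) v x ≠ 0) ⊆
        (nb S v).biUnion fun w => univ.filter fun x => pk S r j w x ≠ 0 := by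
      intro x hx
      rw [mem_filter, pk_succ] at hx
      rw [mem_biUnion]
      by_contra hcon
      push Not at hcon
      apply hx.2
      have h2 : ∑ w ∈ nb S v, pk S r j w x = 0 := by
        refine Finset.sum_eq_zero fun w hw => ?_
        by_contra h3
        exact hcon w hw (mem_filter.2 ⟨mem_univ _, h3⟩)
      rw [h2, zero_div]
    calc (univ.filter fun x => pk S r (j + 1) v x ≠ 0).card
        ≤ ((nb S v).biUnion fun w => univ.filter fun x => pk S r j w x ≠ 0).card :=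
          card_le_card h1
      _ ≤ ∑ w ∈ nb S v, (univ.filter fun x => pk S r j w x ≠ 0).card := card_biUnion_le
      _ ≤ ∑ w ∈ nb S v, (r + 1) ^ j := Finset.sum_le_sum fun w _ => ih w
      _ = (nb S v).card * (r + 1) ^ j := by rw [Finset.sum_const, smul_eq_mul]
      _ ≤ (r + 1) * (r + 1) ^ j := Nat.mul_le_mul_right _ (hi v)
      _ = (r + 1) ^ (j + 1) := by ring

end Basic

section Asym

open Filter Topology

/-- the constants are fine for large `d` -/
theorem asymP (a e δ : ℝ) (ha0 : 0 < a) (ha1 : a ≤ 1 / 100) (he : 0 < e) (hδ : 0 < δ) :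
    ∃ d0 : ℕ, 2 ≤ d0 ∧ ∀ d : ℕ, d0 ≤ d →
      6 ≤ (d : ℝ) ^ (a / 40) ∧
      a * Real.log d + Real.log (2 / e) ≤ (d : ℝ) ^ (7 * a / 600) / 8 ∧
      2 * (d : ℝ) ^ (a / 40) ≤ δ * (d : ℝ) ^ (1 - a) ∧
      4 * (d : ℝ) ^ (a / 40) * Real.log d + 1 ≤ (d : ℝ) ^ (a / 20) := by
  have hpow : ∀ b : ℝ, 0 < b → Tendsto (fun d : ℕ => (d : ℝ) ^ b) atTop atTop := fun b hb =>
    (tendsto_rpow_atTop hb).comp tendsto_natCast_atTop_atTop
  have hlog : ∀ b C : ℝ, 0 < b → 0 < C → ∀ᶠ d : ℕ in atTop, Real.log d ≤ C * (d : ℝ) ^ b := by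
    intro b C hb hC
    have h1 := (isLittleO_log_rpow_atTop hb).bound hC
    have h2 := tendsto_natCast_atTop_atTop.eventually h1
    filter_upwards [h2, eventually_ge_atTop 1] with d h3 h4
    have h5 : (1 : ℝ) ≤ d := by exact_mod_cast h4
    rw [Real.norm_of_nonneg (Real.log_nonneg h5),
      Real.norm_of_nonneg (Real.rpow_nonneg (by linarith) _)] at h3
    exact h3
  have e1 := (hpow (a / 40) (by positivity)).eventually_ge_atTop 6
  have e2 := hlog (7 * a / 600) (1 / (16 * a)) (by positivity) (by positivity)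
  have e3 := (hpow (7 * a / 600) (by positivity)).eventually_ge_atTop (16 * Real.log (2 / e))
  have e4 := (hpow (1 / 2) (by norm_num)).eventually_ge_atTop (2 / δ)
  have e5 := hlog (a / 40) (1 / 8) (by positivity) (by norm_num)
  have e6 := (hpow (a / 20) (by positivity)).eventually_ge_atTop 2
  obtain ⟨d0, hd0⟩ := (e1.and (e2.and (e3.and (e4.and (e5.and e6))))).exists_forall_of_atTop
  refine ⟨max d0 2, le_max_right _ _, fun d hd => ?_⟩
  obtain ⟨f1, f2, f3, f4, f5, f6⟩ := hd0 d (le_trans (le_max_left _ _) hd)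
  have hd2 : (2 : ℝ) ≤ d := by exact_mod_cast le_trans (le_max_right _ _) hd
  have hd0' : (0 : ℝ) < d := by linarith
  refine ⟨f1, ?_, ?_, ?_⟩
  · have h1 : a * Real.log d ≤ (d : ℝ) ^ (7 * a / 600) / 16 := by
      calc a * Real.log d ≤ a * (1 / (16 * a) * (d : ℝ) ^ (7 * a / 600)) :=
            mul_le_mul_of_nonneg_left f2 ha0.le
        _ = (d : ℝ) ^ (7 * a / 600) / 16 := by
            field_simp
    linarith
  · have h1 : (d : ℝ) ^ (1 - a) = (d : ℝ) ^ (a / 40) * (d : ℝ) ^ (1 - a - a / 40) := by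
      rw [← Real.rpow_add hd0']
      congr 1
      ring
    have h2 : (d : ℝ) ^ ((1 : ℝ) / 2) ≤ (d : ℝ) ^ (1 - a - a / 40) := by
      apply Real.rpow_le_rpow_of_exponent_le (by linarith)
      linarith
    have h3 : 2 ≤ δ * (d : ℝ) ^ (1 - a - a / 40) := by
      rw [div_le_iff₀ hδ] at f4
      nlinarith
    rw [h1]
    have h4 : (0 : ℝ) < (d : ℝ) ^ (a / 40) := Real.rpow_pos_of_pos hd0' _
    nlinarith
  · have h1 : (d : ℝ) ^ (a / 20) = (d : ℝ) ^ (a / 40) * (d : ℝ) ^ (a / 40) := by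
      rw [← Real.rpow_add hd0']
      congr 1
      ring
    have h4 : (0 : ℝ) < (d : ℝ) ^ (a / 40) := Real.rpow_pos_of_pos hd0' _
    nlinarith

end Asym

/-- **Block KER.** -/
theorem stmt_KER : Stmt_KER.{u} := by
  intro a0 e ha0 ha1 he
  obtain ⟨δ, hδdef⟩ : ∃ δ, δ = min (1 / 2) (e / 2) := ⟨_, rfl⟩
  have hδ0 : 0 < δ := by rw [hδdef]; positivity
  have hδ1 : δ ≤ 1 / 2 := by rw [hδdef]; exact min_le_left _ _
  have hδ2 : δ ≤ e / 2 := by rw [hδdef]; exact min_le_right _ _
  have hlδ : 0 < Real.log (1 + δ) := Real.log_pos (by linarith)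
  obtain ⟨d0, hd02, hd0⟩ := asymP a0 e (Real.log (1 + δ)) ha0 ha1 he hlδ
  refine ⟨8 / e + 1, d0, by
    have : 0 < 8 / e := by positivity
    linarith, ?_⟩
  intro V _ G S d r gS ρ0 K Exc hd hρ0 hρ hgS hgS1 hRes
  obtain ⟨hA1, hA2, hA3, hA4⟩ := hd0 d hd
  have hd2 : (2 : ℝ) ≤ d := by exact_mod_cast le_trans hd02 hd
  have hdpos : (0 : ℝ) < d := by linarith
  have hg0 : 0 < gS := lt_of_lt_of_le (Real.rpow_pos_of_pos hdpos _) hgS
  obtain ⟨q, hqdef⟩ : ∃ q, q = 1 - gS ^ 2 / 4 := ⟨_, rfl⟩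
  have hq0 : 0 < q := by rw [hqdef]; nlinarith
  have hrlo : (d : ℝ) ^ (1 - a0) ≤ r := hRes.rlo
  have hda1 : (1 : ℝ) ≤ (d : ℝ) ^ (1 - a0) :=
    Real.one_le_rpow (by linarith) (by linarith)
  have hr1' : (1 : ℝ) ≤ r := le_trans hda1 hrlo
  have hr1 : 1 ≤ r := by exact_mod_cast hr1'
  have hrpos : (0 : ℝ) < r := by linarith
  -- the length
  obtain ⟨y, hy⟩ : ∃ y, y = (d : ℝ) ^ (a0 / 40) := ⟨_, rfl⟩
  rw [← hy] at hA1 hA3 hA4
  obtain ⟨L, hLdef⟩ : ∃ L : ℕ, L = ⌊y⌋₊ := ⟨_, rfl⟩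
  have hL6 : 6 ≤ L := by
    rw [hLdef]
    apply Nat.le_floor
    push_cast
    exact hA1
  have hLy : (L : ℝ) ≤ y := by
    rw [hLdef]
    exact Nat.floor_le (by linarith)
  have hLy2 : y < L + 1 := by
    rw [hLdef]
    exact Nat.lt_floor_add_one _
  -- the powers of (r + 1) / r
  obtain ⟨a, ha⟩ : ∃ a, a = ((r + 1 : ℕ) : ℝ) / r := ⟨_, rfl⟩
  have haone : 1 ≤ a := by
    rw [ha, le_div_iff₀ hrpos]
    push_cast
    linarith
  have haexp : a ≤ Real.exp (1 / r) := by
    have h1 : a = 1 / r + 1 := by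
      rw [ha]
      push_cast
      field_simp
      ring
    rw [h1]
    exact Real.add_one_le_exp _
  have haL : a ^ (2 * L) ≤ 1 + δ := by
    calc a ^ (2 * L) ≤ Real.exp (1 / r) ^ (2 * L) := pow_le_pow_left₀ (by linarith) haexp _
      _ = Real.exp (((2 * L : ℕ) : ℝ) * (1 / r)) := by rw [← Real.exp_nat_mul]
      _ ≤ Real.exp (Real.log (1 + δ)) := by
          apply Real.exp_le_exp.2
          rw [mul_one_div, div_le_iff₀ hrpos]
          calc ((2 * L : ℕ) : ℝ) ≤ 2 * y := by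
                push_cast
                linarith
            _ ≤ Real.log (1 + δ) * (d : ℝ) ^ (1 - a0) := hA3
            _ ≤ Real.log (1 + δ) * r := mul_le_mul_of_nonneg_left hrlo hlδ.le
      _ = 1 + δ := Real.exp_log (by linarith)
  have haj : ∀ j, j ≤ 2 * L → a ^ j ≤ 1 + δ := fun j hj =>
    le_trans (pow_le_pow_right₀ haone hj) haL
  -- the heat kernel
  have hdeg : ∀ u, S.degree u ≤ r + 1 := fun u => by
    rw [← S.card_neighborFinset_eq_degree, ← nb_eq]
    exact hRes.hi u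
  obtain ⟨N, hN⟩ : ∃ N : ℕ, N = ⌊(8 / e + 1) * d⌋₊ := ⟨_, rfl⟩
  have hNle : (N : ℝ) ≤ (8 / e + 1) * d := by
    rw [hN]
    exact Nat.floor_le (by positivity)
  have hNge : 8 * d / e ≤ (N : ℝ) := by
    have h1 : (8 / e + 1) * d < N + 1 := by
      rw [hN]
      exact Nat.lt_floor_add_one _
    have h2 : 8 * d / e + d < N + 1 := by
      calc 8 * d / e + d = (8 / e + 1) * d := by ring
        _ < N + 1 := h1
    linarith
  have hexp : ∀ T : Finset V, T.card ≤ N →
      gS * T.card ≤ ∑ u ∈ T, ∑ w ∈ univ \ T, qk S (r + 1) u w := by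
    intro T hT
    have h1 : (T.card : ℝ) ≤ (8 / e + 1) * d := le_trans (by exact_mod_cast hT) hNle
    refine le_trans (hRes.ex T h1) (le_of_eq ?_)
    unfold cdg qk
    simp_rw [nb_eq]
  obtain ⟨s, hs⟩ : ∃ s, s = e / (2 * d) := ⟨_, rfl⟩
  have hs0 : 0 < s := by rw [hs]; positivity
  have h4s : 4 / s ≤ (N : ℝ) := by
    refine le_trans (le_of_eq ?_) hNge
    rw [hs]
    field_simp
    ring
  have hqL : q ^ (L - 2) ≤ e / 2 * (d : ℝ) ^ (-a0) := by
    have h1 : q ≤ Real.exp (-(gS ^ 2 / 4)) := by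
      have := Real.add_one_le_exp (-(gS ^ 2 / 4))
      rw [hqdef]
      linarith
    have h2 : (d : ℝ) ^ (-(a0 / 75)) ≤ gS ^ 2 := by
      have h3 : (d : ℝ) ^ (-(a0 / 75)) = ((d : ℝ) ^ (-(a0 / 150))) ^ 2 := by
        rw [← Real.rpow_natCast, ← Real.rpow_mul hdpos.le]
        congr 1
        push_cast
        ring
      rw [h3]
      exact pow_le_pow_left₀ (Real.rpow_nonneg hdpos.le _) hgS 2
    have h4 : y / 2 ≤ ((L - 2 : ℕ) : ℝ) := by
      rw [Nat.cast_sub (by omega)]
      push_cast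
      linarith
    have h5 : (d : ℝ) ^ (7 * a0 / 600) = (d : ℝ) ^ (-(a0 / 75)) * y := by
      rw [hy, ← Real.rpow_add hdpos]
      congr 1
      ring
    have hy0 : 0 < y := by linarith
    calc q ^ (L - 2) ≤ Real.exp (-(gS ^ 2 / 4)) ^ (L - 2) := pow_le_pow_left₀ hq0.le h1 _
      _ = Real.exp (((L - 2 : ℕ) : ℝ) * (-(gS ^ 2 / 4))) := by rw [← Real.exp_nat_mul]
      _ ≤ Real.exp (-(a0 * Real.log d + Real.log (2 / e))) := by
          apply Real.exp_le_exp.2
          have h6 : y / 2 * ((d : ℝ) ^ (-(a0 / 75)) / 4) ≤ ((L - 2 : ℕ) : ℝ) * (gS ^ 2 / 4) := by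
            apply mul_le_mul h4 (by linarith) (by positivity) (by positivity)
          have h7 : y / 2 * ((d : ℝ) ^ (-(a0 / 75)) / 4) = (d : ℝ) ^ (7 * a0 / 600) / 8 := by
            rw [h5]
            ring
          linarith
      _ = e / 2 * (d : ℝ) ^ (-a0) := by
          rw [neg_add, Real.exp_add, ← Real.log_inv, Real.exp_log (by positivity), inv_div,
            Real.rpow_def_of_pos hdpos, mul_comm]
          congr 2
          ring
  have hheat : ∀ v, nsq (hk S (r + 1) v (L - 1)) ≤ s := by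
    intro v
    have h1 := heat S (r + 1) hdeg (by omega) N gS hg0.le (by nlinarith)
      hexp s hs0 h4s v (L - 2)
    rw [show L - 2 + 1 = L - 1 by omega] at h1
    refine le_trans h1 (max_le le_rfl ?_)
    rw [← hqdef, hs]
    have h3 : 1 / (((r + 1 : ℕ) : ℝ)) ≤ (d : ℝ) ^ a0 / d := by
      have h4 : (d : ℝ) ^ (1 - a0) * (d : ℝ) ^ a0 = d := by
        rw [← Real.rpow_add hdpos]
        norm_num
      rw [div_le_div_iff₀ (by positivity) hdpos, one_mul]
      push_cast
      have h5 : 0 < (d : ℝ) ^ a0 := Real.rpow_pos_of_pos hdpos _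
      nlinarith
    have h6 : (d : ℝ) ^ (-a0) * (d : ℝ) ^ a0 = 1 := by
      rw [← Real.rpow_add hdpos]
      norm_num
    calc q ^ (L - 2) * (1 / (((r + 1 : ℕ) : ℝ)))
        ≤ e / 2 * (d : ℝ) ^ (-a0) * ((d : ℝ) ^ a0 / d) :=
          mul_le_mul hqL h3 (by positivity) (by positivity)
      _ = e / 2 * ((d : ℝ) ^ (-a0) * (d : ℝ) ^ a0) / d := by ring
      _ = e / (2 * d) := by
          rw [h6]
          field_simp
  have hheat' : ∀ v, nsq (hk S (r + 1) v L) ≤ s := fun v =>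
    le_trans (nsq_hk_anti' S (r + 1) hdeg (by omega) v (by omega)) (hheat v)
  have hpkle : ∀ j, j ≤ 2 * L → ∀ v x, hk S (r + 1) x j v ≤ s → pk S r j v x ≤ e / d := by
    intro j hj v x h
    rw [pk_hk S r hr1, ← ha]
    calc a ^ j * hk S (r + 1) x j v ≤ (1 + δ) * s :=
          mul_le_mul (haj j hj) h (hk_nonneg S _ x j v) (by linarith)
      _ ≤ 2 * s := by nlinarith
      _ = e / d := by
          rw [hs]
          field_simp
  have hrow : ∀ j v, _ := fun j v => row_bound S r hr1 hRes.lo hRes.hi j v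
  rw [← ha] at hrow
  have hcardrow : ∀ v, (univ.filter fun x => pk S r (2 * L) v x ≠ 0 ∨
      pk S r (2 * L - 1) v x ≠ 0).card ≤ 2 * (r + 1) ^ (2 * L) := by
    intro v
    rw [Finset.filter_or]
    have h1 := supp_card S r hRes.hi (2 * L) v
    have h2 := supp_card S r hRes.hi (2 * L - 1) v
    have h3 : (r + 1) ^ (2 * L - 1) ≤ (r + 1) ^ (2 * L) :=
      Nat.pow_le_pow_right (by omega) (by omega)
    calc _ ≤ _ := card_union_le _ _
      _ ≤ (r + 1) ^ (2 * L) + (r + 1) ^ (2 * L) := Nat.add_le_add h1 (le_trans h2 h3)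
      _ = 2 * (r + 1) ^ (2 * L) := by ring
  have hsx : ((2 * (r + 1) ^ (2 * L) : ℕ) : ℝ) ≤ sx d a0 := by
    unfold sx
    have hl0 : 0 ≤ Real.log d := Real.log_nonneg (by linarith)
    have hdx : (d : ℝ) = Real.exp (Real.log d) := by
      rw [Real.exp_log hdpos]
    have hrd : ((r + 1 : ℕ) : ℝ) ≤ Real.exp (2 * Real.log d) := by
      have h1 := hRes.rhi
      have h2 : (d : ℝ) ^ (1 - a0 / 3) ≤ d := by
        calc (d : ℝ) ^ (1 - a0 / 3) ≤ (d : ℝ) ^ (1 : ℝ) :=
              Real.rpow_le_rpow_of_exponent_le (by linarith) (by linarith)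
          _ = d := Real.rpow_one _
      have h3 : Real.exp (2 * Real.log d) = d * d := by
        rw [two_mul, Real.exp_add, ← hdx]
      rw [h3]
      push_cast
      nlinarith
    have h5 : ((r + 1 : ℕ) : ℝ) ^ (2 * L) ≤ Real.exp (4 * y * Real.log d) := by
      calc ((r + 1 : ℕ) : ℝ) ^ (2 * L) ≤ Real.exp (2 * Real.log d) ^ (2 * L) :=
            pow_le_pow_left₀ (by positivity) hrd _
        _ = Real.exp (((2 * L : ℕ) : ℝ) * (2 * Real.log d)) := by rw [← Real.exp_nat_mul]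
        _ ≤ Real.exp (4 * y * Real.log d) := by
            apply Real.exp_le_exp.2
            push_cast
            nlinarith
    have h6 : (2 : ℝ) ≤ Real.exp 1 := by
      have := Real.add_one_le_exp (1 : ℝ)
      linarith
    calc ((2 * (r + 1) ^ (2 * L) : ℕ) : ℝ) = ((r + 1 : ℕ) : ℝ) ^ (2 * L) * 2 := by push_cast; ring
      _ ≤ Real.exp (4 * y * Real.log d) * Real.exp 1 :=
          mul_le_mul h5 h6 (by positivity) (by positivity)
      _ = Real.exp (4 * y * Real.log d + 1) := by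
          rw [← Real.exp_add]
      _ ≤ _ := Real.exp_le_exp.2 hA4
  have hL20 : (L : ℝ) ≤ (d : ℝ) ^ (a0 / 20) := by
    refine le_trans hLy ?_
    rw [hy]
    exact Real.rpow_le_rpow_of_exponent_le (by linarith) (by linarith)
  refine ⟨L, by omega, hL20, ?_, ?_, ?_, ?_, ?_, ?_, ?_⟩
  · intro v x
    apply hpkle _ le_rfl
    have h1 := hk_le S (r + 1) x v L L s (hheat' v) (hheat' x)
    rwa [← two_mul] at h1
  · intro v x
    apply hpkle _ (by omega)
    have h1 := hk_le S (r + 1) x v L (L - 1) s (hheat' v) (hheat x)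
    rwa [show L - 1 + L = 2 * L - 1 by omega] at h1
  · intro v
    rw [Finset.sum_add_distrib]
    have h1 := (hrow (2 * L) v).2
    have h2 := (hrow (2 * L - 1) v).2
    have h3 := haj (2 * L) le_rfl
    have h4 := haj (2 * L - 1) (by omega)
    linarith
  · intro v
    rw [Finset.sum_sub_distrib]
    have h1 := hrow (2 * L) v
    have h2 := hrow (2 * L - 1) v
    have h3 := haj (2 * L) le_rfl
    have h4 := haj (2 * L - 1) (by omega)
    rw [abs_le]
    constructor <;> linarith [h1.1, h1.2, h2.1, h2.2]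
  · intro v
    obtain ⟨B, hB⟩ : ∃ B : Finset V, B = univ.filter fun x => (nb S x).card = r + 1 := ⟨_, rfl⟩
    have hBE : B ⊆ Exc := by
      intro x hx
      rw [hB, mem_filter] at hx
      by_contra hcon
      have := hRes.off x hcon
      omega
    have hw : ∀ x, (((nb S x).card + 1 - r : ℕ) : ℝ) = 1 + if x ∈ B then 1 else 0 := by
      intro x
      have h1 := hRes.lo x
      have h2 := hRes.hi x
      by_cases hx : (nb S x).card = r + 1
      · have h3 : x ∈ B := by
          rw [hB]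
          exact mem_filter.2 ⟨mem_univ _, hx⟩
        rw [if_pos h3, show (nb S x).card + 1 - r = 2 by omega]
        norm_num
      · have h3 : x ∉ B := by
          rw [hB]
          exact fun h => hx (mem_filter.1 h).2
        rw [if_neg h3, show (nb S x).card + 1 - r = 1 by omega]
        norm_num
    have hsplit : ∑ x, (pk S r (2 * L) v x - pk S r (2 * L - 1) v x) *
        (((nb S x).card + 1 - r : ℕ) : ℝ) =
        (∑ x, pk S r (2 * L) v x - ∑ x, pk S r (2 * L - 1) v x) +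
          (∑ x ∈ B, pk S r (2 * L) v x - ∑ x ∈ B, pk S r (2 * L - 1) v x) := by
      simp_rw [hw, mul_add, mul_one, mul_ite, mul_one, mul_zero]
      rw [Finset.sum_add_distrib, Finset.sum_ite_mem, univ_inter, Finset.sum_sub_distrib,
        Finset.sum_sub_distrib]
    rw [hsplit]
    have hE : ∀ j, j + 1 ≤ 2 * L → 0 ≤ ∑ x ∈ B, pk S r (j + 1) v x ∧
        ∑ x ∈ B, pk S r (j + 1) v x ≤ 2 * ρ0 := by
      intro j hj
      refine ⟨Finset.sum_nonneg fun x _ => pk_nonneg S r _ v x, ?_⟩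
      calc ∑ x ∈ B, pk S r (j + 1) v x ≤ ∑ x ∈ Exc, pk S r (j + 1) v x :=
            Finset.sum_le_sum_of_subset_of_nonneg hBE fun x _ _ => pk_nonneg S r _ v x
        _ ≤ ρ0 * a ^ j := by
            rw [ha]
            exact exc_bound S r hr1 hRes.hi Exc ρ0 hρ0 hRes.exc j v
        _ ≤ ρ0 * 2 := by
            apply mul_le_mul_of_nonneg_left _ hρ0
            have := haj j (by omega)
            linarith
        _ = 2 * ρ0 := by ring
    have hE1 := hE (2 * L - 1) (by omega)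
    have hE2 := hE (2 * L - 2) (by omega)
    rw [show 2 * L - 1 + 1 = 2 * L by omega] at hE1
    rw [show 2 * L - 2 + 1 = 2 * L - 1 by omega] at hE2
    have h1 := hrow (2 * L) v
    have h2 := hrow (2 * L - 1) v
    have h3 := haj (2 * L) le_rfl
    have h4 := haj (2 * L - 1) (by omega)
    rw [abs_le]
    constructor <;> linarith [h1.1, h1.2, h2.1, h2.2, hE1.1, hE1.2, hE2.1, hE2.2]
  · intro v
    exact le_trans (by exact_mod_cast hcardrow v) hsx
  · intro x
    have h1 : (univ.filter fun v => pk S r (2 * L) v x ≠ 0 ∨ pk S r (2 * L - 1) v x ≠ 0)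
        = (univ.filter fun v => pk S r (2 * L) x v ≠ 0 ∨ pk S r (2 * L - 1) x v ≠ 0) := by
      ext v
      simp only [mem_filter, mem_univ, true_and]
      rw [pk_symm S r hr1 (2 * L) v x, pk_symm S r hr1 (2 * L - 1) v x]
    rw [h1]
    exact le_trans (by exact_mod_cast hcardrow x) hsx

end Pool.Agent.Work.MP_db9399_cg.helper21
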